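import Pool.Agent.H40.Tr5

set_option autoImplicit false

namespace Pool.Agent.Results.MP_fb2f7f_lc.Model

open Pool.Agent.H40.Bspt Pool.Agent.H40.Jz Pool.Agent.H40.Js Set Filter Tr JS

abbrev G : Type := TG (⊤ : AddSubgroup (ℕ → V2))

theorem branch (u : ℕ → ℕ → PS G (ℕ → V2))
    (h1 : ∀ n i, 1 ≤ n → 1 ≤ i → i ≤ 2 ^ n → (u n i).1.Infinite)
    (h2 : ∀ n i j, 1 ≤ n → 1 ≤ i → i ≤ 2 ^ n → 1 ≤ j → j ≤ 2 ^ n → i ≠ j → ∀ᶠ x in cofinite,
      x ∈ (u (n + 1) (2 * i - 1)).1 ∨ x ∈ (u (n + 1) (2 * i)).1 → x ∈ (u n i).1 ∧ x ∉ (u n j).1)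
    (h3 : ∀ᶠ g in NF.F (Γ := G), ∀ n i, 1 ≤ n → 1 ≤ i → i ≤ 2 ^ n → ∀ᶠ x in cofinite,
      x ∈ (u n i).1 → g • x ∈ (u n i).1) : False := by
  let φ : (ℕ → Prop) → ℕ → Filter (ℕ → V2) := fun b n => cofinite ⊓ 𝓟 (u (n + 1) (dy b (n + 1))).1
  have k1 : ∀ b n j, 1 ≤ j → j ≤ 2 ^ (n + 1) → dy b (n + 1) ≠ j → ∀ᶠ x in φ b (n + 1),
      x ∈ (u (n + 1) (dy b (n + 1))).1 ∧ x ∉ (u (n + 1) j).1 := fun b n j a1 a2 a3 =>
    eventually_inf_principal.2 ((h2 (n + 1) _ j (by omega) (dy_bd b _).1 (dy_bd b _).2 a1 a2 a3).mono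
      fun x a e => a (by
        rw [dy] at e
        split_ifs at e
        exacts [Or.inl e, Or.inr e]))
  have k2 : ∀ b, Antitone (φ b) := fun b => antitone_nat_of_succ_le fun n =>
    le_inf inf_le_left (le_principal_iff.2 ((k1 b n (if dy b (n + 1) = 1 then 2 else 1)
      (by split_ifs <;> omega) (by have := Nat.one_le_two_pow (n := n); split_ifs <;> omega)
      (by split_ifs <;> omega)).mono fun _ a => a.1))
  have := no_unc v2 (fun b => ⨅ n, φ b n) (fun b => iInf_neBot_of_directed (k2 b).directed_ge fun n =>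
      cofinite_inf_principal_neBot_iff.2 (h1 _ _ (by omega) (dy_bd b _).1 (dy_bd b _).2))
    (fun b => iInf_le_of_le 0 inf_le_left) (fun b t ht => ?_)
    (h3.mono fun g a b => tendsto_iInf.2 fun n => tendsto_iInf' n (tendsto_inf.2
      ⟨(smul_cof g).mono_left inf_le_left, tendsto_principal.2 (eventually_inf_principal.2
        (a _ _ (by omega) (dy_bd b _).1 (dy_bd b _).2))⟩)) fun b b' e => ?_
  · exact (exists_surjective_nat (ℕ → Prop)).elim (Function.cantor_surjective (α := ℕ))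
  · obtain ⟨n, a⟩ := (mem_iInf_of_directed (k2 b).directed_ge t).1 ht
    have c := mem_inf_principal.1 a
    exact ⟨⟨_, sym_inter (u (n + 1) (dy b (n + 1))).2 (sym_compl (sym0 (Or.inl c)))⟩,
      fun x d => not_not.1 d.2 d.1, mem_iInf_of_mem n (mem_inf_principal.2
        (mem_of_superset c fun x d e => ⟨e, not_not.2 d⟩))⟩
  · obtain ⟨n, a⟩ := Function.ne_iff.1 e
    have c := k1 b n _ (dy_bd b' _).1 (dy_bd b' _).2 fun f =>
      a (propext (dy_congr.1 f n n.lt_succ_self))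
    exact Filter.disjoint_iff.2 ⟨_, mem_iInf_of_mem (n + 1) c, _, mem_iInf_of_mem n
      (mem_inf_of_right (mem_principal_self _)), Set.disjoint_left.2 fun _ d => d.2⟩

theorem result : ∃ (M : Type) (E : M → M → Prop) (ν : ℕ → M), IsZF E ∧ Numer E ν ∧
    (∀ a, ¬ IsFin E a → SFBI E ν a) ∧ ∃ A, ¬ IsFin E A ∧ ¬ DFBI E ν A := by
  have he : Emb (⊤ : AddSubgroup (ℕ → V2)) id := ⟨Function.injective_id, fun _ _ => rfl⟩
  obtain ⟨J, hJ⟩ := ex_tr v2 he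
  refine ⟨J.M, J.E, J.nu, J.zf, J.numer, fun a ha => ?_, J.sA unA, fun e =>
    (cyl_inf 0 (0 : ℕ → V2)).mono (subset_univ _) (J.finA.1 e), ?_⟩
  · obtain ⟨g, h | ⟨n, u, B, hB, h⟩⟩ := hJ a ha
    · exact h.sfbi JS.sfbi_om
    let v := Infinite.natEmbedding V2
    refine h.sfbi (JS.sfbi_of (t := .a) (fun k => ⟨_, sym0 (s0_diff (n := n + 1)
      (u := Function.update u n (v k)) hB)⟩) (fun k x a => ⟨x, ⟨fun i hi =>
        (a.1 i (by omega)).trans (Function.update_of_ne hi.ne ..), a.2⟩, rfl⟩)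
      (fun k => (cyl_inf _ _).sdiff hB) (fun i j e x a b => e (v.injective ?_)) ?_)
    · simpa using (a.1 n n.lt_succ_self).symm.trans (b.1 n n.lt_succ_self)
    · filter_upwards [sym0 (Z := ⊤) (y := cyl (n + 1) (0 : ℕ → V2)) (Or.inr ⟨_, _, .rfl⟩)] with g a k
      obtain ⟨e, -, b⟩ := g.2
      filter_upwards [b, hB.eventually_cofinite_notMem,
        (smul_cof g).eventually hB.eventually_cofinite_notMem] with x c d f
      refine and_congr (forall₂_congr fun i hi => ?_) (iff_of_true f d)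
      rw [show (g • x : ℕ → V2) = _ from c, Pi.add_apply, ep_cyl b a i hi, Pi.zero_apply, add_zero]
  rintro ⟨V, ⟨f, hf⟩, h⟩
  have : Nonempty (PS G (PS G (ℕ → V2))) := ⟨un (A := ℕ → V2) (.w .a)⟩
  have : Nonempty (PS G (ℕ → V2)) := ⟨unA⟩
  choose! v hv using fun n i a b c => J.fb_el ((h n a).1 i b c).1
  have ex : ∀ n i, 1 ≤ n → 1 ≤ i → i ≤ 2 ^ n → ∃ u, u ∈ (v n i).1 := fun n i a b c => by
    obtain ⟨U, e⟩ := ((h n a).1 i b c).1.1
    rw [hv n i a b c] at e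
    exact (J.elS e).imp fun _ d => d.1
  choose! u hu using ex
  have mem : ∀ n i, 1 ≤ n → 1 ≤ i → i ≤ 2 ^ n → ∀ {w}, J.E (J.sA w) (V n i) ↔ w ∈ (v n i).1 :=
    fun n i a b c w => by rw [hv n i a b c, J.memS]
  have ae : ∀ n i, 1 ≤ n → 1 ≤ i → i ≤ 2 ^ n → ∀ w ∈ (v n i).1, ∀ w' ∈ (v n i).1,
      ∀ᶠ x in cofinite, x ∈ w.1 → x ∈ w'.1 := fun n i a b c w d w' e => by
    have := ((h n a).1 i b c).2.2.2.2 _ _ ((mem n i a b c).2 d) ((mem n i a b c).2 e)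
    rw [J.few_iff fun z h => J.isA h.1] at this
    exact this.subset fun x k => by simpa [J.memA] using k
  refine branch u (fun n i a b c e => ((h n a).1 i b c).2.2.2.1 _ ((mem n i a b c).2 (hu n i a b c))
    (J.finA.2 e)) (fun n i j a b c b' c' e => ?_) ?_
  · obtain ⟨U, U', a1, a2, a3, a4⟩ := (h n a).2.1 i j b c b' c' e _ _
      ((mem n i a b c).2 (hu n i a b c)) ((mem n j a b' c').2 (hu n j a b' c'))
    have r1 : 1 ≤ n + 1 ∧ 1 ≤ 2 * i - 1 ∧ 2 * i - 1 ≤ 2 ^ (n + 1) := by omega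
    have r2 : 1 ≤ n + 1 ∧ 1 ≤ 2 * i ∧ 2 * i ≤ 2 ^ (n + 1) := by omega
    rw [hv _ _ r1.1 r1.2.1 r1.2.2] at a1
    rw [hv _ _ r2.1 r2.2.1 r2.2.2] at a2
    obtain ⟨U, -, rfl⟩ := J.elS a1
    obtain ⟨U', -, rfl⟩ := J.elS a2
    rw [J.memS] at a1 a2
    rw [J.few_iff fun z h => h.1.elim J.isA J.isA] at a3 a4
    simp only [J.memA] at a3 a4
    filter_upwards [ae _ _ r1.1 r1.2.1 r1.2.2 _ (hu _ _ r1.1 r1.2.1 r1.2.2) _ a1,
      ae _ _ r2.1 r2.2.1 r2.2.2 _ (hu _ _ r2.1 r2.2.1 r2.2.2) _ a2,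
      a3.eventually_cofinite_notMem, a4.eventually_cofinite_notMem] with x b1 b2 b3 b4 b5
    exact ⟨by_contra fun k => b3 ⟨b5.imp b1 b2, k⟩, fun k => b4 ⟨b5.imp b1 b2, k⟩⟩
  · filter_upwards [J.sym_mem (t := .p (.p .n .n) (.w (.w .a))) f] with g a n i b c d
    have k : ∀ w, J.E (J.ν (.p (.p .n .n) (.w (.w .a))) ((n, i), w)) f ↔ J.fA w = V n i := fun w =>
      (J.app_nu.symm.trans (J.op_nu (u := .n)).symm).trans (hf n i b c d _)
    have e : g • v n i = v n i := J.inj (.w (.w .a)) (((k _).1 ((a ((n, i), v n i)).2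
      ((k _).2 (hv n i b c d).symm))).trans (hv n i b c d))
    filter_upwards [(smul_cof g).eventually (ae n i b c d (g • u n i)
      (e ▸ smul_mem.2 (hu n i b c d)) _ (hu n i b c d))] with x l m using l (smul_mem.2 m)

end Pool.Agent.Results.MP_fb2f7f_lc.Model
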